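import Pool.Agent.H77.PerC

set_option autoImplicit false

/-!
# Upper and lower limits of sequences of `1/n`-periodic functions: every periodic function occurs
-/

namespace Pool.Agent.Results.MP_942486_an.EveryPeriodicLimsup

open MeasureTheory Filter Set Topology

/-- An admissible sequence `(f_n)_{n ≥ 1}`: measurable (with respect to Lebesgue measure), uniformly bounded,
`f_n` of period `1/n`. The value at the index `0` plays no role. -/
structure Admissible (f : ℕ → ℝ → ℝ) : Prop where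
  meas : ∀ n : ℕ, 1 ≤ n → AEMeasurable (f n) volume
  bdd : ∃ M : ℝ, ∀ n : ℕ, 1 ≤ n → ∀ x, |f n x| ≤ M
  per : ∀ n : ℕ, 1 ≤ n → ∀ x, f n (x + 1 / (n : ℝ)) = f n x

/-- `F^*`, the pointwise upper limit -/
noncomputable def up (f : ℕ → ℝ → ℝ) (x : ℝ) : ℝ := limsup (fun n => f n x) atTop

/-- `F_*`, the pointwise lower limit -/
noncomputable def low (f : ℕ → ℝ → ℝ) (x : ℝ) : ℝ := liminf (fun n => f n x) atTop

/-- the bounded functions of period `1` that are measurable with respect to Lebesgue measure -/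
structure BddPeriodic (g : ℝ → ℝ) : Prop where
  meas : AEMeasurable g volume
  bdd : ∃ M : ℝ, ∀ x, |g x| ≤ M
  per : ∀ x, g (x + 1) = g x

theorem per_one {f : ℕ → ℝ → ℝ} (hf : Admissible f) (n : ℕ) (hn : 1 ≤ n) (x : ℝ) :
    f n (x + 1) = f n x := by
  have h1 : Function.Periodic (f n) (1 / (n : ℝ)) := hf.per n hn
  have h2 := h1.nat_mul n x
  have e : (n : ℝ) * (1 / n) = 1 := by
    have : (n : ℝ) ≠ 0 := by exact_mod_cast (by omega : n ≠ 0)
    field_simp
  rw [e] at h2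
  exact h2

theorem neg_adm {f : ℕ → ℝ → ℝ} (hf : Admissible f) : Admissible (fun n x => - f n x) where
  meas n hn := (hf.meas n hn).neg
  bdd := by
    obtain ⟨M, hM⟩ := hf.bdd
    exact ⟨M, fun n hn x => by rw [abs_neg]; exact hM n hn x⟩
  per n hn x := by
    show - f n (x + 1 / (n : ℝ)) = - f n x
    rw [hf.per n hn x]

theorem bddA {f : ℕ → ℝ → ℝ} {M : ℝ} (hM : ∀ n : ℕ, 1 ≤ n → ∀ x, |f n x| ≤ M) (x : ℝ) :
    IsBoundedUnder (· ≤ ·) atTop (fun n => f n x) :=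
  ⟨M, eventually_map.2 ((eventually_ge_atTop 1).mono fun n hn => (abs_le.1 (hM n hn x)).2)⟩

theorem bddB {f : ℕ → ℝ → ℝ} {M : ℝ} (hM : ∀ n : ℕ, 1 ≤ n → ∀ x, |f n x| ≤ M) (x : ℝ) :
    IsBoundedUnder (· ≥ ·) atTop (fun n => f n x) :=
  ⟨-M, eventually_map.2 ((eventually_ge_atTop 1).mono fun n hn => (abs_le.1 (hM n hn x)).1)⟩

theorem low_neg {f : ℕ → ℝ → ℝ} (hf : Admissible f) (x : ℝ) : low (fun n x => - f n x) x = - up f x := by
  obtain ⟨M, hM⟩ := hf.bdd
  have h := Antitone.map_limsup_of_continuousAt (F := (atTop : Filter ℕ)) (f := fun y : ℝ => -y)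
    (fun a b hab => neg_le_neg hab) (fun n => f n x) continuous_neg.continuousAt
    (bddA hM x) (bddB hM x).isCoboundedUnder_le
  exact h.symm

theorem up_periodic {f : ℕ → ℝ → ℝ} (hf : Admissible f) : BddPeriodic (up f) := by
  obtain ⟨M, hM⟩ := hf.bdd
  refine ⟨?_, ⟨M, fun x => abs_le.2 ⟨?_, ?_⟩⟩, fun x => ?_⟩
  · have h1 : ∀ n : ℕ, AEMeasurable (f (n + 1)) volume := fun n => hf.meas (n + 1) (by omega)
    refine ⟨fun x => limsup (fun n => (h1 n).mk _ x) atTop, Measurable.limsup fun n => (h1 n).measurable_mk,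
      ?_⟩
    have h2 : ∀ᵐ x : ℝ, ∀ n, f (n + 1) x = (h1 n).mk _ x := ae_all_iff.2 fun n => (h1 n).ae_eq_mk
    filter_upwards [h2] with x hx
    have h3 : up f x = limsup (fun n => f (n + 1) x) atTop := (limsup_nat_add (fun n => f n x) 1).symm
    rw [h3]
    congr 1
    funext n
    exact hx n
  · refine le_limsup_of_frequently_le ?_ (bddA hM x)
    exact ((eventually_ge_atTop 1).mono fun n hn => (abs_le.1 (hM n hn x)).1).frequently
  · refine limsup_le_of_le (bddB hM x).isCoboundedUnder_le ?_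
    exact (eventually_ge_atTop 1).mono fun n hn => (abs_le.1 (hM n hn x)).2
  · apply limsup_congr
    filter_upwards [eventually_ge_atTop 1] with n hn
    exact per_one hf n hn x

theorem low_periodic {f : ℕ → ℝ → ℝ} (hf : Admissible f) : BddPeriodic (low f) := by
  have h1 := up_periodic (neg_adm hf)
  have h2 : low f = fun x => - up (fun n x => - f n x) x := by
    funext x
    rw [← low_neg (neg_adm hf) x]
    simp
  rw [h2]
  refine ⟨h1.meas.neg, ?_, fun x => ?_⟩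
  · obtain ⟨M, hM⟩ := h1.bdd
    exact ⟨M, fun x => by rw [abs_neg]; exact hM x⟩
  · show - up _ (x + 1) = - up _ x
    rw [h1.per x]

theorem realise (g : ℝ → ℝ) (hg : AEMeasurable g volume) (M : ℝ) (hM : ∀ x, |g x| ≤ M)
    (hp : ∀ x, g (x + 1) = g x) : ∃ f : ℕ → ℝ → ℝ, Admissible f ∧ (∀ n, Measurable (f n)) ∧
      (∀ n x, |f n x| ≤ M) ∧ ∀ᵐ x : ℝ, up f x = g x := by
  have hM0 : 0 ≤ M := (abs_nonneg (g 0)).trans (hM 0)
  set g₁ : ℝ → ℝ := fun x => Pool.Agent.H77.Per.cl M (hg.mk g (Int.fract x)) with hg₁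
  have hm : Measurable g₁ := by
    have h1 : Measurable fun x : ℝ => hg.mk g (Int.fract x) := hg.measurable_mk.comp measurable_fract
    exact measurable_const.max (measurable_const.min h1)
  have hb : ∀ x, |g₁ x| ≤ M := fun x =>
    abs_le.2 ⟨Pool.Agent.H77.Per.le_cl _ _, Pool.Agent.H77.Per.cl_le hM0 _⟩
  have hp1 : ∀ x, g₁ (x + 1) = g₁ x := by
    intro x
    simp only [hg₁, Int.fract_add_one]
  obtain ⟨f, h1, h2, h3, h4⟩ := Pool.Agent.H77.Per.main g₁ hm M hb hp1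
  refine ⟨f, ⟨fun n _ => (h1 n).aemeasurable, ⟨M, fun n _ x => h2 n x⟩, fun n _ x => h3 n x⟩, h1, h2, ?_⟩
  have h5 : ∀ᵐ x : ℝ, g₁ x = g x := by
    refine Pool.Agent.H77.Per.ae_of_periodic hp1 hp ?_
    have hne : ∀ᵐ x ∂(volume.restrict (Ioc (0 : ℝ) 1)), x ≠ 1 := by
      apply ae_restrict_of_ae
      filter_upwards [(countable_singleton (1 : ℝ)).ae_notMem volume] with x hx
      simpa using hx
    filter_upwards [ae_restrict_of_ae hg.ae_eq_mk, hne, ae_restrict_mem measurableSet_Ioc] with x hx hx1 hx2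
    have h6 : Int.fract x = x := Int.fract_eq_self.2 ⟨hx2.1.le, lt_of_le_of_ne hx2.2 hx1⟩
    show Pool.Agent.H77.Per.cl M (hg.mk g (Int.fract x)) = g x
    rw [h6, ← hx, Pool.Agent.H77.Per.cl_eq (hM x)]
  filter_upwards [h4, h5] with x hx hx'
  exact hx.trans hx'

theorem realise_low (g : ℝ → ℝ) (hg : AEMeasurable g volume) (M : ℝ) (hM : ∀ x, |g x| ≤ M)
    (hp : ∀ x, g (x + 1) = g x) : ∃ f : ℕ → ℝ → ℝ, Admissible f ∧ (∀ n, Measurable (f n)) ∧
      (∀ n x, |f n x| ≤ M) ∧ ∀ᵐ x : ℝ, low f x = g x := by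
  obtain ⟨f, h1, h2, h3, h4⟩ := realise (fun x => - g x) hg.neg M
    (fun x => by rw [abs_neg]; exact hM x) (fun x => by rw [hp])
  refine ⟨fun n x => - f n x, neg_adm h1, fun n => (h2 n).neg, fun n x => by rw [abs_neg]; exact h3 n x, ?_⟩
  filter_upwards [h4] with x hx
  rw [low_neg h1, hx, neg_neg]

theorem nonconst : ∃ g : ℝ → ℝ, BddPeriodic g ∧ ¬ ∃ c : ℝ, ∀ᵐ x : ℝ, g x = c := by
  refine ⟨fun x => Int.fract x, ⟨measurable_fract.aemeasurable, ⟨1, fun x => ?_⟩, fun x => ?_⟩, ?_⟩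
  · rw [abs_of_nonneg (Int.fract_nonneg x)]
    exact (Int.fract_lt_one x).le
  · exact Int.fract_add_one x
  · rintro ⟨c, hc⟩
    have h1 : volume (Ioo (0 : ℝ) 1 \ {c}) = 0 := by
      refine measure_mono_null (fun x hx => ?_) hc
      intro h
      have h2 : Int.fract x = c := h
      rw [Int.fract_eq_self.2 ⟨hx.1.1.le, hx.1.2⟩] at h2
      exact hx.2 h2
    rw [measure_sdiff_null (by simp)] at h1
    simp at h1

/-- **The upper limits of the admissible sequences are exactly the bounded measurable functions of period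
`1`.** (1) For every admissible sequence `F^*` and `F_*` are bounded, measurable and of period `1`.
(2) Every bounded (by `M`) measurable `g` of period `1` equals `F^*` almost everywhere for some admissible
sequence of Borel functions bounded by the same `M`, and (3) equals `F_*` almost everywhere for another one.
(4) So the answer to Q1 is negative, both for `F^*` and for `F_*`. -/
theorem result :
    (∀ f : ℕ → ℝ → ℝ, Admissible f → BddPeriodic (up f) ∧ BddPeriodic (low f)) ∧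
    (∀ (g : ℝ → ℝ) (M : ℝ), AEMeasurable g volume → (∀ x, |g x| ≤ M) → (∀ x, g (x + 1) = g x) →
      ∃ f : ℕ → ℝ → ℝ, Admissible f ∧ (∀ n, Measurable (f n)) ∧ (∀ n x, |f n x| ≤ M) ∧
        ∀ᵐ x : ℝ, up f x = g x) ∧
    (∀ (g : ℝ → ℝ) (M : ℝ), AEMeasurable g volume → (∀ x, |g x| ≤ M) → (∀ x, g (x + 1) = g x) →
      ∃ f : ℕ → ℝ → ℝ, Admissible f ∧ (∀ n, Measurable (f n)) ∧ (∀ n x, |f n x| ≤ M) ∧
        ∀ᵐ x : ℝ, low f x = g x) ∧
    (∃ f : ℕ → ℝ → ℝ, Admissible f ∧ ¬ ∃ c : ℝ, ∀ᵐ x : ℝ, up f x = c) ∧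
    (∃ f : ℕ → ℝ → ℝ, Admissible f ∧ ¬ ∃ c : ℝ, ∀ᵐ x : ℝ, low f x = c) := by
  obtain ⟨g, hg, hgc⟩ := nonconst
  obtain ⟨M, hM⟩ := hg.bdd
  refine ⟨fun f hf => ⟨up_periodic hf, low_periodic hf⟩, fun g M h1 h2 h3 => realise g h1 M h2 h3,
    fun g M h1 h2 h3 => realise_low g h1 M h2 h3, ?_, ?_⟩
  · obtain ⟨f, h1, -, -, h2⟩ := realise g hg.meas M hM hg.per
    refine ⟨f, h1, fun ⟨c, hc⟩ => hgc ⟨c, ?_⟩⟩
    filter_upwards [h2, hc] with x hx hx'
    rw [← hx, hx']
  · obtain ⟨f, h1, -, -, h2⟩ := realise_low g hg.meas M hM hg.per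
    refine ⟨f, h1, fun ⟨c, hc⟩ => hgc ⟨c, ?_⟩⟩
    filter_upwards [h2, hc] with x hx hx'
    rw [← hx, hx']

end Pool.Agent.Results.MP_942486_an.EveryPeriodicLimsup
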